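import Mathlib
import Pool.Agent.Helper639.ForceCH
import Pool.Agent.R820.QCGuess

set_option autoImplicit false

namespace Pool.Agent.Results.MP_6bb66b_gt.UnderDiamond

open Pool.Agent.Helper639.ForceCH (Om OmegaOnePreserved DiamondHolds)

/-- `f` is quasicontinuous. -/
def QuasiContinuous {X : Type} [TopologicalSpace X] (f : X → ℝ) : Prop :=
  ∀ x, ∀ U : Set X, IsOpen U → x ∈ U → ∀ V : Set ℝ, IsOpen V → f x ∈ V →
    ∃ W ⊆ U, IsOpen W ∧ W.Nonempty ∧ f '' W ⊆ V

/-- `Q_p(X, ℝ)`: the quasicontinuous functions with the topology of pointwise convergence. -/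
abbrev Qp (X : Type) [TopologicalSpace X] : Type := {f : X → ℝ // QuasiContinuous f}

/-- The regular open sets form a base. -/
def SemiRegular (X : Type) [TopologicalSpace X] : Prop :=
  TopologicalSpace.IsTopologicalBasis {U : Set X | interior (closure U) = U}

/-- For every open `A` and every `x` in the closure of `A` but not in `A` there is an open
`B ⊆ A` whose closure minus `A` is `{x}`. -/
def OpenWhyburn (X : Type) [TopologicalSpace X] : Prop :=
  ∀ A : Set X, IsOpen A → ∀ x ∈ closure A \ A, ∃ B ⊆ A, IsOpen B ∧ closure B \ A = {x}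

/-- `C` is a closed unbounded subset of `ω₁` (the sentence named by `IsClubName`). -/
def IsClub (C : Om → Prop) : Prop :=
  (∀ a : Om, ∃ b : Om, a < b ∧ C b) ∧
    ∀ a : Om, (∃ b, b < a) → (∀ b : Om, b < a → ∃ c : Om, (b < c ∧ c < a) ∧ C c) → C a

/-- Diamond: the sentence which `DiamondHolds P` says is forced, evaluated in the universe. -/
def Diamond : Prop :=
  ∃ A : Om → Om → Prop, ∀ S : Om → Prop, ∀ C : Om → Prop,
    IsClub C → ∃ a : Om, C a ∧ ∀ b : Om, b < a → (S b ↔ A a b)

/-- Some forcing notion forces that `ω₁` is preserved and diamond holds, and diamond implies that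
there is an uncountable open Whyburn Hausdorff semi-regular space `X` (even Tychonoff, first
countable and zero-dimensional) such that `Q_p(X, ℝ)` is Fréchet-Urysohn. -/
theorem result :
    (∃ (P : Type) (_ : Preorder P), Nonempty P ∧
      ∀ p : P, p ∈ OmegaOnePreserved P ∧ p ∈ DiamondHolds P) ∧
    (Diamond → ∃ (X : Type) (_ : TopologicalSpace X), OpenWhyburn X ∧ T2Space X ∧
      SemiRegular X ∧ T35Space X ∧ FirstCountableTopology X ∧
      (∀ (U : Set X) (x : X), IsOpen U → x ∈ U → ∃ V, IsClopen V ∧ x ∈ V ∧ V ⊆ U) ∧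
      Uncountable X ∧ FrechetUrysohnSpace (Qp X)) := by
  refine ⟨?_, fun hd => ?_⟩
  · obtain ⟨P, i, hn, h⟩ := Pool.Agent.Helper639.ForceCH.exists_forcing
    exact ⟨P, i, hn, fun p => ⟨(h p).1, (h p).2.1⟩⟩
  · obtain ⟨X, τ, h1, h2, h3, h4, h5, h6⟩ := Pool.Agent.R820.QC.main hd
    have hq : ∀ f : X → ℝ, Pool.Agent.R820.QC.QCont f ↔ QuasiContinuous f := by
      intro f
      constructor
      · intro hf x U hU hx V hV hfx
        obtain ⟨ε, hε, hεV⟩ := Metric.isOpen_iff.1 hV _ hfx
        obtain ⟨W, h1, h2, h3, h4⟩ := hf x U hU hx ε hε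
        refine ⟨W, h1, h2, h3, ?_⟩
        rintro _ ⟨y, hy, rfl⟩
        exact hεV (by rw [Metric.mem_ball, Real.dist_eq]; exact h4 y hy)
      · intro hf x U hU hx ε hε
        obtain ⟨W, h1, h2, h3, h4⟩ := hf x U hU hx (Metric.ball (f x) ε) Metric.isOpen_ball
          (Metric.mem_ball_self hε)
        refine ⟨W, h1, h2, h3, fun y hy => ?_⟩
        have := h4 ⟨y, hy, rfl⟩
        rwa [Metric.mem_ball, Real.dist_eq] at this
    have hq' : Pool.Agent.R820.QC.QCont (X := X) = QuasiContinuous := by
      funext f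
      exact propext (hq f)
    refine ⟨X, τ, Pool.Agent.R820.QC.openWhyburn h5, inferInstance, ?_, h1, h2, h5, h4, ?_⟩
    · refine TopologicalSpace.isTopologicalBasis_of_isOpen_of_nhds ?_ ?_
      · intro U hU
        have hU' : interior (closure U) = U := hU
        rw [← hU']
        exact isOpen_interior
      · intro x U hx hU
        obtain ⟨V, hV, hxV, hVU⟩ := h5 U x hU hx
        refine ⟨V, ?_, hxV, hVU⟩
        show interior (closure V) = V
        rw [hV.isClosed.closure_eq, hV.isOpen.interior_eq]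
    · rw [hq'] at h6
      exact h6

end Pool.Agent.Results.MP_6bb66b_gt.UnderDiamond
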